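import Mathlib

set_option autoImplicit false

/-! Ladder systems on nonreflecting sets are disjointifiable below each point. -/

namespace Pool.Agent.Helper79L.LS

open Set Order Cardinal

variable {W : Type} [LinearOrder W] [WellFoundedLT W]

/-- `L` is a ladder system on `S` -/
structure Lad (S : Set W) (L : W → Set W) : Prop where
  sub : ∀ j ∈ S, ∀ i ∈ L j, i < j
  fin : ∀ j ∈ S, ∀ x < j, {i | i ∈ L j ∧ i ≤ x}.Finite
  cof : ∀ j ∈ S, ∀ x < j, ∃ i ∈ L j, x < i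
  ctb : ∀ j ∈ S, (L j).Countable

/-- `g` disjointifies the ladders at points of `S` in `(σ, ρ]` -/
def Dj (S : Set W) (L : W → Set W) (P : W → Prop) (σ : W) (g : W → W) : Prop :=
  (∀ j ∈ S, P j → σ ≤ g j ∧ g j < j) ∧
  ∀ j ∈ S, P j → ∀ j' ∈ S, P j' → j < j' → ∀ i, i ∈ L j → g j < i → i ∈ L j' → g j' < i → False

/-- a cofinal set below `ρ` through which one can decompose `S ∩ ρ` -/
def Good (S : Set W) (ρ : W) (C : Set W) : Prop :=
  (∀ c ∈ C, c < ρ) ∧ (∀ x < ρ, ∃ c ∈ C, x ≤ c) ∧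
  ∀ j ∈ S, j < ρ → (∃ c ∈ C, c < j) → ∃ c ∈ C, c < j ∧ ∀ d ∈ C, d < j → d ≤ c

theorem exmin {P : W → Prop} (h : ∃ x, P x) : ∃ x, P x ∧ ∀ y, P y → x ≤ y := by
  obtain ⟨x, hx, h1⟩ := wellFounded_lt.has_min {x | P x} h
  exact ⟨x, hx, fun y hy => not_lt.1 (h1 y hy)⟩

/-- the step -/
theorem step {S : Set W} {L : W → Set W} (hL : Lad S L) {ρ : W} {C : Set W} (hC : Good S ρ C)
    (ih : ∀ u < ρ, ∀ σ, ∃ g, Dj S L (fun j => σ < j ∧ j ≤ u) σ g) (σ : W) :
    ∃ g, Dj S L (fun j => σ < j ∧ j ≤ ρ) σ g := by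
  classical
  obtain ⟨hC1, hC2, hC3⟩ := hC
  choose G hG using ih
  -- upper and lower points
  have hu : ∀ j, ∃ u, j < ρ → (u ∈ C ∧ j ≤ u) ∧ ∀ y, (y ∈ C ∧ j ≤ y) → u ≤ y := by
    intro j
    by_cases hj : j < ρ
    · obtain ⟨u, h1, h2⟩ := exmin (P := fun y => y ∈ C ∧ j ≤ y) (hC2 j hj)
      exact ⟨u, fun _ => ⟨h1, h2⟩⟩
    · exact ⟨j, fun h => absurd h hj⟩
  choose u hu using hu
  have hl : ∀ j, ∃ l, j ∈ S → σ < j → j < ρ →
      (σ ≤ l ∧ l < j) ∧ (l = σ ∨ l ∈ C) ∧ ∀ d ∈ C, d < j → d ≤ l := by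
    intro j
    by_cases hj : j ∈ S ∧ σ < j ∧ j < ρ
    · obtain ⟨h1, h2, h3⟩ := hj
      by_cases h4 : ∃ c ∈ C, c < j
      · obtain ⟨c, hc, hcj, hm⟩ := hC3 j h1 h3 h4
        refine ⟨max σ c, fun _ _ _ => ⟨⟨le_max_left _ _, max_lt h2 hcj⟩, ?_,
          fun d hd hdj => (hm d hd hdj).trans (le_max_right _ _)⟩⟩
        rcases le_total σ c with h5 | h5
        · exact Or.inr (by rwa [max_eq_right h5])
        · exact Or.inl (by rw [max_eq_left h5])
      · refine ⟨σ, fun _ _ _ => ⟨⟨le_rfl, h2⟩, Or.inl rfl, fun d hd hdj => absurd ⟨d, hd, hdj⟩ h4⟩⟩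
    · exact ⟨j, fun h1 h2 h3 => absurd ⟨h1, h2, h3⟩ hj⟩
  choose l hl using hl
  -- finite part of the ladder at `ρ`
  have hm : ∀ j, ∃ m, j < ρ → σ < j → ρ ∈ S →
      σ ≤ m ∧ m < j ∧ ∀ i ∈ L ρ, i < j → i ≤ m := by
    intro j
    by_cases hj : j < ρ ∧ σ < j ∧ ρ ∈ S
    · obtain ⟨h1, h2, h3⟩ := hj
      have hf : {i | i ∈ L ρ ∧ i < j}.Finite :=
        (hL.fin ρ h3 j h1).subset fun i hi => ⟨hi.1, hi.2.le⟩
      have hf' : (insert σ {i | i ∈ L ρ ∧ i < j}).Finite := hf.insert σ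
      obtain ⟨m, hm1, hm2⟩ := hf'.exists_maximal (insert_nonempty _ _)
      refine ⟨m, fun _ _ _ => ⟨?_, ?_, ?_⟩⟩
      · rcases le_total σ m with h | h
        · exact h
        · exact hm2 (mem_insert _ _) h
      · rcases hm1 with h | h
        · rw [h]; exact h2
        · exact h.2
      · intro i hi hij
        rcases le_total i m with h | h
        · exact h
        · exact hm2 (Or.inr ⟨hi, hij⟩) h
    · exact ⟨j, fun h1 h2 h3 => absurd ⟨h1, h2, h3⟩ hj⟩
  choose m hm using hm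
  let g : W → W := fun j =>
    if hj : j < ρ then
      (if h : u j < ρ then
        (if ρ ∈ S then max (m j) (G (u j) h (l j) j) else G (u j) h (l j) j) else σ)
    else σ
  have key : ∀ j ∈ S, σ < j → ∀ (hj : j < ρ), ∃ h : u j < ρ,
      G (u j) h (l j) j ≤ g j ∧ l j ≤ G (u j) h (l j) j ∧ g j < j ∧ σ ≤ g j ∧
      (ρ ∈ S → m j ≤ g j) := by
    intro j hjS hσ hj
    have h : u j < ρ := hC1 _ (hu j hj).1.1
    have h1 := (hG (u j) h (l j)).1 j hjS ⟨(hl j hjS hσ hj).1.2, (hu j hj).1.2⟩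
    have h2 := (hl j hjS hσ hj).1.1
    refine ⟨h, ?_, h1.1, ?_, ?_, ?_⟩
    · simp only [g, hj, h, dite_true]
      split_ifs
      · exact le_max_right _ _
      · exact le_rfl
    · simp only [g, hj, h, dite_true]
      split_ifs with h3
      · exact max_lt (hm j hj hσ h3).2.1 h1.2
      · exact h1.2
    · simp only [g, hj, h, dite_true]
      split_ifs with h3
      · exact (h2.trans h1.1).trans (le_max_right _ _)
      · exact h2.trans h1.1
    · intro h3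
      simp only [g, hj, h, dite_true, h3, if_true]
      exact le_max_left _ _
  refine ⟨g, ?_, ?_⟩
  · rintro j hjS ⟨hσ, hj⟩
    rcases hj.lt_or_eq with hj | hj
    · obtain ⟨h, h1, h2, h3, h4, h5⟩ := key j hjS hσ hj
      exact ⟨h4, h3⟩
    · have : g j = σ := by simp [g, hj]
      rw [this]
      exact ⟨le_rfl, hσ⟩
  · rintro j hjS ⟨hσ, hj⟩ j' hjS' ⟨hσ', hj'⟩ hlt i hi hgi hi' hgi'
    have hjρ : j < ρ := hlt.trans_le hj'
    obtain ⟨h, h1, h2, h3, h4, h5⟩ := key j hjS hσ hjρ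
    have hij := hL.sub j hjS i hi
    rcases hj'.lt_or_eq with hj' | hj'
    · obtain ⟨h', h1', h2', h3', h4', h5'⟩ := key j' hjS' hσ' hj'
      by_cases hc : u j < j'
      · -- separated
        have h6 : u j ≤ l j' := (hl j' hjS' hσ' hj').2.2 _ (hu j hjρ).1.1 hc
        have h7 : j ≤ u j := (hu j hjρ).1.2
        exact absurd hij (not_lt.2 ((h7.trans h6).trans ((h2'.trans h1').trans hgi'.le)))
      · push Not at hc
        have h6 : u j = u j' := by
          refine le_antisymm ?_ ?_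
          · refine (hu j hjρ).2 _ ⟨(hu j' hj').1.1, hlt.le.trans (hu j' hj').1.2⟩
          · exact (hu j' hj').2 _ ⟨(hu j hjρ).1.1, hc⟩
        have h7 : l j = l j' := by
          refine le_antisymm ?_ ?_
          · rcases (hl j hjS hσ hjρ).2.1 with h8 | h8
            · rw [h8]; exact (hl j' hjS' hσ' hj').1.1
            · exact (hl j' hjS' hσ' hj').2.2 _ h8 ((hl j hjS hσ hjρ).1.2.trans hlt)
          · rcases (hl j' hjS' hσ' hj').2.1 with h8 | h8
            · rw [h8]; exact (hl j hjS hσ hjρ).1.1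
            · refine (hl j hjS hσ hjρ).2.2 _ h8 ?_
              by_contra h9
              push Not at h9
              have h10 := (hu j hjρ).2 _ ⟨h8, h9⟩
              exact absurd ((hc.trans h10).trans_lt (hl j' hjS' hσ' hj').1.2) (lt_irrefl _)
        have h8 : G (u j) h (l j) j < i := h1.trans_lt hgi
        have h9 : G (u j) h (l j) j' < i := by
          have : G (u j') h' (l j') j' < i := h1'.trans_lt hgi'
          convert this using 2
        exact (hG (u j) h (l j)).2 j hjS ⟨(hl j hjS hσ hjρ).1.2, (hu j hjρ).1.2⟩ j' hjS'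
          ⟨h7 ▸ (hl j' hjS' hσ' hj').1.2, h6 ▸ (hu j' hj').1.2⟩ hlt i hi h8 hi' h9
    · subst hj'
      have h6 := (hm j hjρ hσ hjS').2.2 i hi' hij
      exact absurd hgi (not_lt.2 (h6.trans (h5 hjS')))

theorem disj_all {S : Set W} {L : W → Set W} (hL : Lad S L) (hC : ∀ ρ, ∃ C, Good S ρ C) (ρ : W) :
    ∀ σ, ∃ g, Dj S L (fun j => σ < j ∧ j ≤ ρ) σ g := by
  induction ρ using WellFoundedLT.induction with
  | _ ρ ih =>
    obtain ⟨C, hC⟩ := hC ρ
    exact step hL hC ih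

end Pool.Agent.Helper79L.LS
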