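import Mathlib
import Pool.Agent.Helper79L.LS.Disj

set_option autoImplicit false

/-! Good sets and ladders. -/

namespace Pool.Agent.Helper79L.LS

open Set Order Cardinal

variable {W : Type} [LinearOrder W]

theorem exists_seq (ρ : W) (D : Set W) (hD : D.Countable) (hne : D.Nonempty)
    (h1 : ∀ d ∈ D, d < ρ) (h2 : ∀ x < ρ, ∃ d ∈ D, x ≤ d) (h3 : ∀ x < ρ, ∃ y, x < y ∧ y < ρ) :
    ∃ c : ℕ → W, StrictMono c ∧ (∀ n, c n < ρ) ∧ ∀ x < ρ, ∃ n, x < c n := by
  obtain ⟨d, rfl⟩ := hD.exists_eq_range hne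
  have hd : ∀ n, d n < ρ := fun n => h1 _ ⟨n, rfl⟩
  choose! up hup using h3
  let c : ℕ → W := fun n => Nat.rec (d 0) (fun n x => up (max x (d n))) n
  have hc : ∀ n, c (n + 1) = up (max (c n) (d n)) := fun n => rfl
  have hcρ : ∀ n, c n < ρ := by
    intro n
    induction n with
    | zero => exact hd 0
    | succ n ih => rw [hc]; exact (hup _ (max_lt ih (hd n))).2
  refine ⟨c, strictMono_nat_of_lt_succ fun n => ?_, hcρ, fun x hx => ?_⟩
  · rw [hc]
    exact (le_max_left _ _).trans_lt (hup _ (max_lt (hcρ n) (hd n))).1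
  · obtain ⟨_, ⟨n, rfl⟩, hn⟩ := h2 x hx
    refine ⟨n + 1, ?_⟩
    rw [hc]
    exact (hn.trans (le_max_right _ _)).trans_lt (hup _ (max_lt (hcρ n) (hd n))).1

theorem good_countable (S : Set W) (ρ : W) (D : Set W) (hD : D.Countable)
    (h1 : ∀ d ∈ D, d < ρ) (h2 : ∀ x < ρ, ∃ d ∈ D, x ≤ d) : ∃ C, Good S ρ C := by
  classical
  rcases D.eq_empty_or_nonempty with rfl | hne
  · exact ⟨∅, by simp, h2, by simp⟩
  by_cases h3 : ∃ m < ρ, ∀ x < ρ, x ≤ m
  · obtain ⟨m, hm, hm'⟩ := h3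
    refine ⟨{m}, by simpa using hm, fun x hx => ⟨m, rfl, hm' x hx⟩, ?_⟩
    rintro j - hj ⟨c, rfl, hc⟩
    exact absurd (hm' j hj) (not_le.2 hc)
  · push Not at h3
    obtain ⟨c, hc, hcρ, hcc⟩ := exists_seq ρ D hD hne h1 h2 fun x hx => by
      obtain ⟨y, hy, hxy⟩ := h3 x hx
      exact ⟨y, hxy, hy⟩
    refine ⟨range c, ?_, fun x hx => ?_, ?_⟩
    · rintro _ ⟨n, rfl⟩
      exact hcρ n
    · obtain ⟨n, hn⟩ := hcc x hx
      exact ⟨_, ⟨n, rfl⟩, hn.le⟩
    · rintro j - hj ⟨_, ⟨n, rfl⟩, hn⟩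
      have hex : ∃ N, j ≤ c N := by
        obtain ⟨N, hN⟩ := hcc j hj
        exact ⟨N, hN.le⟩
      have h4 : Nat.find hex ≠ 0 := by
        intro h0
        have h5 := Nat.find_spec hex
        rw [h0] at h5
        exact absurd (hc.monotone (Nat.zero_le n)) (not_le.2 (hn.trans_le h5))
      refine ⟨_, ⟨Nat.find hex - 1, rfl⟩, ?_, ?_⟩
      · have := Nat.find_min hex (m := Nat.find hex - 1) (by omega)
        exact not_le.1 this
      · rintro _ ⟨k, rfl⟩ hk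
        refine hc.monotone ?_
        have h6 : k < Nat.find hex := by
          by_contra h7
          push Not at h7
          exact absurd ((Nat.find_spec hex).trans (hc.monotone h7)) (not_le.2 hk)
        omega

theorem good_cof (S : Set W) (ρ : W) (h : cof (Iio ρ) ≤ ℵ₀) : ∃ C, Good S ρ C := by
  obtain ⟨s, hs, hs'⟩ := exists_cof_eq (Iio ρ)
  have hc : s.Countable := by
    rw [← le_aleph0_iff_set_countable, hs']
    exact h
  refine good_countable S ρ (Subtype.val '' s) (hc.image _) ?_ ?_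
  · rintro _ ⟨x, -, rfl⟩
    exact x.2
  · intro x hx
    obtain ⟨y, hy, hxy⟩ := hs ⟨x, hx⟩
    exact ⟨y, ⟨y, hy, rfl⟩, hxy⟩

theorem good_club [WellFoundedLT W] (S : Set W) (ρ : W) (C₀ : Set (Iio ρ)) (hC : IsClub C₀)
    (hd : Disjoint {x : Iio ρ | (x : W) ∈ S} C₀) : ∃ C, Good S ρ C := by
  refine ⟨Subtype.val '' C₀, ?_, ?_, ?_⟩
  · rintro _ ⟨x, -, rfl⟩
    exact x.2
  · intro x hx
    obtain ⟨y, hy, hxy⟩ := hC.isCofinal ⟨x, hx⟩
    exact ⟨y, ⟨y, hy, rfl⟩, hxy⟩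
  · rintro j hjS hj ⟨_, ⟨c, hc, rfl⟩, hcj⟩
    let t : Set (Iio ρ) := {x | x ∈ C₀ ∧ (x : W) < j}
    have ht : (upperBounds t).Nonempty := ⟨⟨j, hj⟩, fun x hx => hx.2.le⟩
    obtain ⟨x, hx, hx'⟩ : ∃ x : Iio ρ, x ∈ upperBounds t ∧ ∀ y, y ∈ upperBounds t → x ≤ y :=
      exmin (P := fun x : Iio ρ => x ∈ upperBounds t) ht
    have hl : IsLUB t x := ⟨hx, fun y hy => hx' y hy⟩
    have hxC : x ∈ C₀ := hC.isLUB_mem (t := t) (fun y hy => And.left hy) ⟨c, And.intro hc hcj⟩ hl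
    have hxj : x ≤ (⟨j, hj⟩ : Iio ρ) := hx' (⟨j, hj⟩ : Iio ρ) fun y hy => hy.2.le
    have hne : (x : W) ≠ j := by
      intro h
      exact Set.disjoint_left.1 hd (show (x : W) ∈ S by rw [h]; exact hjS) hxC
    have hlt : (x : W) < j := lt_of_le_of_ne hxj hne
    refine ⟨x, ⟨x, hxC, rfl⟩, hlt, ?_⟩
    rintro _ ⟨d, hd, rfl⟩ hdj
    exact hx (show d ∈ t from ⟨hd, hdj⟩)

theorem good_all [WellFoundedLT W] (S : Set W)
    (h : ∀ ρ : W, ℵ₀ < cof (Iio ρ) → ¬ IsStationary {x : Iio ρ | (x : W) ∈ S}) (ρ : W) :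
    ∃ C, Good S ρ C := by
  by_cases hc : cof (Iio ρ) ≤ ℵ₀
  · exact good_cof S ρ hc
  · obtain ⟨C, hC, hd⟩ := not_isStationary_iff.1 (h ρ (not_le.1 hc))
    exact good_club S ρ C hC hd

/-- If `S` does not reflect at points of uncountable cofinality at most `μ` and `T ⊆ S` has at most
`μ` elements, then `T` has good sets below all points. -/
theorem good_sub [WellFoundedLT W] (S T : Set W) (hT : T ⊆ S) (μ : Cardinal.{0}) (hμ : #T ≤ μ)
    (h : ∀ ρ : W, ℵ₀ < cof (Iio ρ) → cof (Iio ρ) ≤ μ → ¬ IsStationary {x : Iio ρ | (x : W) ∈ S})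
    (ρ : W) : ∃ C, Good T ρ C := by
  by_cases hc : cof (Iio ρ) ≤ ℵ₀
  · exact good_cof T ρ hc
  by_cases hc' : cof (Iio ρ) ≤ μ
  · obtain ⟨C, hC, hd⟩ := not_isStationary_iff.1 (h ρ (not_le.1 hc) hc')
    exact good_club T ρ C hC (hd.mono_left fun x hx => hT hx)
  · -- `T ∩ ρ` is bounded
    have h1 : ¬ IsCofinal {x : Iio ρ | (x : W) ∈ T} := by
      intro hcf
      have h2 : #{x : Iio ρ | (x : W) ∈ T} ≤ #T := by
        refine mk_le_of_injective (f := fun x => (⟨x.1.1, x.2⟩ : T)) ?_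
        intro x y hxy
        have : x.1.1 = y.1.1 := congrArg (fun z : T => (z : W)) hxy
        exact Subtype.ext (Subtype.ext this)
      exact hc' ((cof_le hcf).trans (h2.trans hμ))
    have h3 : ∃ m : Iio ρ, ∀ x : Iio ρ, (x : W) ∈ T → x < m := by
      by_contra hn
      push Not at hn
      exact h1 fun m => by
        obtain ⟨x, hx, hmx⟩ := hn m
        exact ⟨x, hx, hmx⟩
    obtain ⟨m, hm⟩ := h3
    refine ⟨{x | (m : W) ≤ x ∧ x < ρ}, fun c hc => hc.2, fun x hx => ?_, ?_⟩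
    · exact ⟨max x m, ⟨le_max_right _ _, max_lt hx m.2⟩, le_max_left _ _⟩
    · rintro j hj hjρ ⟨c, hc, hcj⟩
      have h4 : (⟨j, hjρ⟩ : Iio ρ) < m := hm _ hj
      exact absurd (hc.1.trans_lt hcj) (not_lt.2 (le_of_lt h4))

theorem lad_exists (S : Set W) (h : ∀ δ ∈ S, cof (Iio δ) = ℵ₀) : ∃ L : W → Set W, Lad S L := by
  have key : ∀ δ, ∃ A : Set W, δ ∈ S → (∀ i ∈ A, i < δ) ∧
      (∀ x < δ, {i | i ∈ A ∧ i ≤ x}.Finite) ∧ (∀ x < δ, ∃ i ∈ A, x < i) ∧ A.Countable := by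
    intro δ
    by_cases hδ : δ ∈ S
    · obtain ⟨s, hs, hs'⟩ := exists_cof_eq (Iio δ)
      have hc : s.Countable := by
        rw [← le_aleph0_iff_set_countable, hs', h δ hδ]
      have hne : s.Nonempty := by
        rw [Set.nonempty_iff_ne_empty]
        rintro rfl
        rw [h δ hδ] at hs'
        simp at hs'
        exact aleph0_ne_zero hs'.symm
      obtain ⟨c, hc, hcρ, hcc⟩ := exists_seq δ (Subtype.val '' s) (hc.image _) (hne.image _)
        (by rintro _ ⟨x, -, rfl⟩; exact x.2)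
        (fun x hx => by
          obtain ⟨y, hy, hxy⟩ := hs ⟨x, hx⟩
          exact ⟨y, ⟨y, hy, rfl⟩, hxy⟩)
        (fun x hx => by
          by_contra hcon
          push Not at hcon
          have h1 : cof (Iio δ) ≤ 1 := by
            have : Nonempty (Iio δ) := ⟨⟨x, hx⟩⟩
            rw [cof_le_one_iff]
            refine ⟨⟨x, hx⟩, fun y => ?_⟩
            by_contra hy
            exact absurd y.2 (not_lt.2 (hcon y (not_le.1 hy)))
          rw [h δ hδ] at h1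
          exact absurd h1 (not_le.2 one_lt_aleph0))
      refine ⟨range c, fun _ => ⟨?_, fun x hx => ?_, fun x hx => ?_, countable_range c⟩⟩
      · rintro _ ⟨n, rfl⟩
        exact hcρ n
      · obtain ⟨N, hN⟩ := hcc x hx
        refine ((finite_Iio N).image c).subset ?_
        rintro _ ⟨⟨n, rfl⟩, hn⟩
        refine ⟨n, ?_, rfl⟩
        by_contra h4
        exact absurd (hN.trans_le (hc.monotone (not_lt.1 h4))) (not_lt.2 hn)
      · obtain ⟨n, hn⟩ := hcc x hx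
        exact ⟨_, ⟨n, rfl⟩, hn⟩
    · exact ⟨∅, fun h => absurd h hδ⟩
  choose L hL using key
  exact ⟨L, fun j hj => (hL j hj).1, fun j hj => (hL j hj).2.1, fun j hj => (hL j hj).2.2.1,
    fun j hj => (hL j hj).2.2.2⟩

end Pool.Agent.Helper79L.LS
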