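import Mathlib

set_option autoImplicit false

/-! The one-point compactification of the space of an almost disjoint family. -/

namespace Pool.Agent.Helper79L.LS

open Set Topology

/-- Points: isolated points, limit points and a point at infinity. -/
inductive Pt (I J : Type) : Type
  | iso (i : I) : Pt I J
  | lim (j : J) : Pt I J
  | inf : Pt I J

variable {I J : Type}

/-- The space of the family `A`. -/
def Sp (_A : J → Set I) : Type := Pt I J

def siso (A : J → Set I) (i : I) : Sp A := Pt.iso i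
def slim (A : J → Set I) (j : J) : Sp A := Pt.lim j
def sinf (A : J → Set I) : Sp A := Pt.inf

variable {A : J → Set I}

theorem cases_pt (x : Sp A) : (∃ i, x = siso A i) ∨ (∃ j, x = slim A j) ∨ x = sinf A := by
  cases x with
  | iso i => exact Or.inl ⟨i, rfl⟩
  | lim j => exact Or.inr (Or.inl ⟨j, rfl⟩)
  | inf => exact Or.inr (Or.inr rfl)

@[simp] theorem iso_inj {i i' : I} : siso A i = siso A i' ↔ i = i' :=
  ⟨fun h => by injection h, fun h => by rw [h]⟩
@[simp] theorem lim_inj {i i' : J} : slim A i = slim A i' ↔ i = i' :=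
  ⟨fun h => by injection h, fun h => by rw [h]⟩
@[simp] theorem iso_ne_lim {i : I} {j : J} : siso A i ≠ slim A j := fun h => by injection h
@[simp] theorem iso_ne_inf {i : I} : siso A i ≠ sinf A := fun h => by injection h
@[simp] theorem lim_ne_iso {i : I} {j : J} : slim A j ≠ siso A i := fun h => by injection h
@[simp] theorem lim_ne_inf {j : J} : slim A j ≠ sinf A := fun h => by injection h
@[simp] theorem inf_ne_iso {i : I} : sinf A ≠ siso A i := fun h => by injection h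
@[simp] theorem inf_ne_lim {j : J} : sinf A ≠ slim A j := fun h => by injection h

def Op (U : Set (Sp A)) : Prop :=
  (∀ j, slim A j ∈ U → {i | i ∈ A j ∧ siso A i ∉ U}.Finite) ∧
  (sinf A ∈ U → ∃ F : Set J, F.Finite ∧ (∀ j, j ∉ F → slim A j ∈ U) ∧
    {i | siso A i ∉ U ∧ ∀ j ∈ F, i ∉ A j}.Finite)

instance : TopologicalSpace (Sp A) where
  IsOpen := Op
  isOpen_univ := ⟨fun j _ => by simp, fun _ => ⟨∅, by simp, by simp, by simp⟩⟩
  isOpen_inter := by
    rintro U V ⟨hU, hU'⟩ ⟨hV, hV'⟩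
    refine ⟨fun j hj => ((hU j hj.1).union (hV j hj.2)).subset ?_, fun h => ?_⟩
    · rintro i ⟨h1, h2⟩
      by_cases h3 : siso A i ∈ U
      · exact Or.inr ⟨h1, fun h4 => h2 ⟨h3, h4⟩⟩
      · exact Or.inl ⟨h1, h3⟩
    · obtain ⟨F, hF, h1, h2⟩ := hU' h.1
      obtain ⟨G, hG, h3, h4⟩ := hV' h.2
      refine ⟨F ∪ G, hF.union hG, fun j hj => ⟨h1 j fun h => hj (Or.inl h),
        h3 j fun h => hj (Or.inr h)⟩, (h2.union h4).subset ?_⟩
      rintro i ⟨h5, h6⟩
      by_cases h7 : siso A i ∈ U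
      · exact Or.inr ⟨fun h8 => h5 ⟨h7, h8⟩, fun j hj => h6 j (Or.inr hj)⟩
      · exact Or.inl ⟨h7, fun j hj => h6 j (Or.inl hj)⟩
  isOpen_sUnion := by
    intro 𝒰 h
    refine ⟨fun j hj => ?_, fun hi => ?_⟩
    · obtain ⟨U, hU, hjU⟩ := hj
      refine ((h U hU).1 j hjU).subset ?_
      rintro i ⟨h1, h2⟩
      exact ⟨h1, fun h3 => h2 ⟨U, hU, h3⟩⟩
    · obtain ⟨U, hU, hjU⟩ := hi
      obtain ⟨F, hF, h1, h2⟩ := (h U hU).2 hjU
      refine ⟨F, hF, fun j hj => ⟨U, hU, h1 j hj⟩, h2.subset ?_⟩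
      rintro i ⟨h5, h6⟩
      exact ⟨fun h3 => h5 ⟨U, hU, h3⟩, h6⟩

theorem isOpen_def (U : Set (Sp A)) : IsOpen U ↔ Op U := Iff.rfl

instance : CompactSpace (Sp A) where
  isCompact_univ := by
    classical
    rw [isCompact_iff_finite_subcover]
    intro ι U hU hc
    have hx : ∀ x : Sp A, ∃ k, x ∈ U k := fun x => by simpa using hc (mem_univ x)
    choose k hk using hx
    obtain ⟨F, hF, h1, h2⟩ := (hU (k (sinf A))).2 (hk (sinf A))
    have h3 : (⋃ j ∈ F, {i | i ∈ A j ∧ siso A i ∉ U (k (slim A j))}).Finite :=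
      hF.biUnion fun j _ => (hU (k (slim A j))).1 j (hk (slim A j))
    let T : Finset ι := insert (k (sinf A)) ((hF.toFinset.image fun j => k (slim A j)) ∪
      (h2.toFinset.image fun i => k (siso A i)) ∪ (h3.toFinset.image fun i => k (siso A i)))
    refine ⟨T, fun x _ => ?_⟩
    rw [mem_iUnion₂]
    rcases cases_pt x with ⟨i, rfl⟩ | ⟨j, rfl⟩ | rfl
    · by_cases h4 : siso A i ∈ U (k (sinf A))
      · exact ⟨_, by simp [T], h4⟩
      by_cases h5 : ∀ j ∈ F, i ∉ A j
      · refine ⟨k (siso A i), ?_, hk _⟩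
        simp only [T, Finset.mem_insert, Finset.mem_union, Finset.mem_image]
        exact Or.inr (Or.inl (Or.inr ⟨i, by simpa using ⟨h4, h5⟩, rfl⟩))
      · push Not at h5
        obtain ⟨j, hj, hij⟩ := h5
        by_cases h6 : siso A i ∈ U (k (slim A j))
        · refine ⟨k (slim A j), ?_, h6⟩
          simp only [T, Finset.mem_insert, Finset.mem_union, Finset.mem_image]
          exact Or.inr (Or.inl (Or.inl ⟨j, by simpa using hj, rfl⟩))
        · refine ⟨k (siso A i), ?_, hk _⟩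
          simp only [T, Finset.mem_insert, Finset.mem_union, Finset.mem_image]
          refine Or.inr (Or.inr ⟨i, ?_, rfl⟩)
          rw [Set.Finite.mem_toFinset, mem_iUnion₂]
          exact ⟨j, hj, hij, h6⟩
    · by_cases h4 : j ∈ F
      · refine ⟨k (slim A j), ?_, hk _⟩
        simp only [T, Finset.mem_insert, Finset.mem_union, Finset.mem_image]
        exact Or.inr (Or.inl (Or.inl ⟨j, by simpa using h4, rfl⟩))
      · exact ⟨_, by simp [T], h1 j h4⟩
    · exact ⟨_, by simp [T], hk _⟩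

/-- isolated points are clopen -/
theorem clopen_iso (i : I) : IsClopen ({siso A i} : Set (Sp A)) := by
  refine ⟨⟨?_⟩, ?_⟩
  · refine (isOpen_def _).2 ⟨fun j _ => (finite_singleton i).subset ?_, fun _ =>
      ⟨∅, finite_empty, fun j _ => by simp, (finite_singleton i).subset ?_⟩⟩
    · rintro i' ⟨-, h⟩
      simpa using h
    · rintro i' ⟨h, -⟩
      simpa using h
  · exact (isOpen_def _).2 ⟨fun j hj => by simp at hj, fun h => by simp at h⟩

/-- the clopen set given by `lim j` and a set `B` almost equal to `A j` -/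
def Vs (A : J → Set I) (j : J) (B : Set I) : Set (Sp A) := {x | x = slim A j ∨ ∃ i ∈ B, x = siso A i}

@[simp] theorem iso_mem_Vs {j : J} {B : Set I} {i : I} : siso A i ∈ Vs A j B ↔ i ∈ B := by
  simp [Vs]

@[simp] theorem lim_mem_Vs {j j' : J} {B : Set I} : slim A j' ∈ Vs A j B ↔ j' = j := by
  simp [Vs]

@[simp] theorem inf_mem_Vs {j : J} {B : Set I} : sinf A ∉ Vs A j B := by
  simp [Vs]

theorem clopen_Vs (had : ∀ j j', j ≠ j' → (A j ∩ A j').Finite) (j : J) {B : Set I} (hB : B ⊆ A j)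
    (hB' : (A j \ B).Finite) : IsClopen (Vs A j B) := by
  refine ⟨⟨?_⟩, ?_⟩
  · refine (isOpen_def _).2 ⟨fun j' hj' => ?_, fun _ => ⟨{j}, finite_singleton j, ?_, ?_⟩⟩
    · have h1 : j ≠ j' := fun h => hj' (by simp [h])
      refine (had j j' h1).subset ?_
      rintro i ⟨h2, h3⟩
      have h4 : i ∈ B := by simpa using h3
      exact ⟨hB h4, h2⟩
    · intro j' hj'
      simpa using hj'
    · refine finite_empty.subset ?_
      rintro i ⟨h2, h3⟩
      exact h3 j rfl (hB (by simpa using h2))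
  · refine (isOpen_def _).2 ⟨fun j' hj' => ?_, fun h => absurd h inf_mem_Vs⟩
    have h1 : j' = j := by simpa using hj'
    subst h1
    refine hB'.subset ?_
    rintro i ⟨h2, h3⟩
    exact ⟨h2, by simpa using h3⟩

theorem t2 (had : ∀ j j', j ≠ j' → (A j ∩ A j').Finite) : T2Space (Sp A) := by
  have hV : ∀ j, IsClopen (Vs A j (A j)) := fun j =>
    clopen_Vs had j Subset.rfl (by simp)
  have key : ∀ x y : Sp A, x ≠ y → ∃ U : Set (Sp A), IsClopen U ∧
      ((x ∈ U ∧ y ∉ U) ∨ (y ∈ U ∧ x ∉ U)) := by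
    intro x y hxy
    rcases cases_pt x with ⟨i, rfl⟩ | ⟨j, rfl⟩ | rfl
    · exact ⟨_, clopen_iso i, Or.inl ⟨rfl, fun h => hxy h.symm⟩⟩
    · rcases cases_pt y with ⟨i, rfl⟩ | ⟨j', rfl⟩ | rfl
      · exact ⟨_, clopen_iso i, Or.inr ⟨rfl, fun h => hxy h⟩⟩
      · exact ⟨_, hV j, Or.inl ⟨by simp, fun h => hxy (by rw [lim_mem_Vs.1 h])⟩⟩
      · exact ⟨_, hV j, Or.inl ⟨by simp, by simp⟩⟩
    · rcases cases_pt y with ⟨i, rfl⟩ | ⟨j', rfl⟩ | rfl
      · exact ⟨_, clopen_iso i, Or.inr ⟨rfl, fun h => hxy h⟩⟩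
      · exact ⟨_, hV j', Or.inr ⟨by simp, by simp⟩⟩
      · exact absurd rfl hxy
  refine ⟨fun x y hxy => ?_⟩
  obtain ⟨U, hU, h | h⟩ := key x y hxy
  · exact ⟨U, Uᶜ, hU.2, hU.1.isOpen_compl, h.1, h.2, disjoint_compl_right⟩
  · exact ⟨Uᶜ, U, hU.1.isOpen_compl, hU.2, h.2, h.1, disjoint_compl_left⟩

end Pool.Agent.Helper79L.LS
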