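import Mathlib
import Pool.Agent.Helper79L.LS.Space
import Pool.Agent.Helper79L.LS.GoodC
import Pool.Agent.H82.LadA

set_option autoImplicit false

/-! The ladder system space. -/

namespace Pool.Agent.Helper79L.LS

open Set Order Cardinal Topology
open Pool.Agent.H82.LadA (Reg)

section St

variable {W : Type} [LinearOrder W] {θ : Cardinal.{0}}

/-- stationary sets, through closure points of functions -/
def St (S : Set W) : Prop := ∀ (g : W → W) (a : W), ∃ x ∈ S, a < x ∧ ∀ y < x, g y < x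

theorem St.mono {S T : Set W} (h : St S) (h' : S ⊆ T) : St T := fun g a =>
  let ⟨x, h1, h2⟩ := h g a; ⟨x, h' h1, h2⟩

theorem St.unb {S : Set W} (h : St S) (a : W) : ∃ x ∈ S, a < x :=
  let ⟨x, h1, h2, _⟩ := h id a; ⟨x, h1, h2⟩

theorem St.gt {S : Set W} (h : St S) (a : W) : St {x ∈ S | a < x} := fun g b =>
  let ⟨x, h1, h2, h3⟩ := h g (max a b)
  ⟨x, ⟨h1, (le_max_left _ _).trans_lt h2⟩, (le_max_right _ _).trans_lt h2, h3⟩

theorem diag (h : Reg W θ) {ι : Type} (S : ι → Set W) (r : ι → W)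
    (hr : ∀ a, #{i | r i ≤ a} < θ) (hS : St {x | ∃ i, r i < x ∧ x ∈ S i}) : ∃ i, St (S i) := by
  by_contra hn
  simp only [St, not_exists, not_forall, not_and, not_lt] at hn
  choose g a hg using hn
  have h1 : ∀ y, ∃ b, ∀ z ∈ (fun p : ι × W => max (a p.1) (g p.1 p.2)) '' {i | r i ≤ y} ×ˢ Iic y,
      z < b := fun y => h.bdd (mk_image_le.trans_lt (by
        rw [mk_setProd]; exact mul_lt_of_lt h.reg.aleph0_le (hr y) (h.iic y)))
  choose G hG using h1
  obtain ⟨b⟩ : Nonempty W := mk_ne_zero_iff.1 (h.card ▸ h.reg.pos.ne')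
  obtain ⟨x, ⟨i, h2, h3⟩, -, h4⟩ := hS G b
  obtain ⟨y, h5, h6⟩ := hg i x h3 ((le_max_left _ _).trans_lt
    ((hG (r i) _ ⟨(i, r i), ⟨le_rfl, le_rfl⟩, rfl⟩).trans (h4 _ h2)))
  exact ((le_max_right _ _).trans_lt ((hG (max y (r i)) _ ⟨(i, y), ⟨le_max_right _ _,
    le_max_left _ _⟩, rfl⟩).trans (h4 _ (max_lt h5 h2)))).not_ge h6

theorem St.fodor (h : Reg W θ) {S : Set W} (hS : St S) (f : W → W) (hf : ∀ x ∈ S, f x < x) :
    ∃ z, St {x ∈ S | f x = z} :=
  diag h _ id h.iic (hS.mono fun x hx => ⟨f x, hf x hx, hx, rfl⟩)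

theorem St.pigeon (h : Reg W θ) {S : Set W} (hS : St S) {α : Type} {Y : Set α} (hY : #Y < θ)
    (f : W → α) (hf : ∀ x ∈ S, f x ∈ Y) : ∃ y, St {x ∈ S | f x = y} := by
  obtain ⟨b⟩ : Nonempty W := mk_ne_zero_iff.1 (h.card ▸ h.reg.pos.ne')
  obtain ⟨y, hy⟩ := diag h (fun y : Y => {x ∈ S | f x = y}) (fun _ => b)
    (fun _ => (mk_set_le _).trans_lt hY) ((hS.gt b).mono fun x hx =>
      ⟨⟨f x, hf x hx.1⟩, hx.2, hx.1, rfl⟩)
  exact ⟨y, hy⟩

end St

variable {W : Type} [LinearOrder W] [WellFoundedLT W] {S : Set W} {L : W → Set W}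

/-- the ladders indexed by `S` -/
def lj (S : Set W) (L : W → Set W) : S → Set W := fun j => L j

theorem had (hL : Lad S L) : ∀ j j' : S, j ≠ j' → (lj S L j ∩ lj S L j').Finite := by
  intro j j' hne
  rcases lt_or_gt_of_ne (fun h => hne (Subtype.ext h) : (j : W) ≠ j') with h | h
  · exact (hL.fin j' j'.2 j h).subset fun i hi => ⟨hi.2, (hL.sub j j.2 i hi.1).le⟩
  · exact (hL.fin j j.2 j' h).subset fun i hi => ⟨hi.1, (hL.sub j' j'.2 i hi.2).le⟩

theorem Lad.mono {T : Set W} (hL : Lad S L) (hT : T ⊆ S) : Lad T L :=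
  ⟨fun j hj => hL.sub j (hT hj), fun j hj => hL.fin j (hT hj), fun j hj => hL.cof j (hT hj),
    fun j hj => hL.ctb j (hT hj)⟩

/-- the indices of limit points in the closure of `A₀` -/
def cset (S : Set W) (L : W → Set W) (A₀ : Set (Sp (lj S L))) : Set W :=
  {j | ∃ h : j ∈ S, slim (lj S L) ⟨j, h⟩ ∈ closure A₀}

theorem card_cset (hL : Lad S L) (A₀ : Set (Sp (lj S L))) (μ : Cardinal.{0}) (hμ : μ ^ ℵ₀ = μ)
    (h2 : 𝔠 ≤ μ) (hA : #A₀ ≤ μ) : #(cset S L A₀) ≤ μ := by
  classical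
  have hμ0 : ℵ₀ ≤ μ := aleph0_le_continuum.trans h2
  let D : Set W := {i | siso _ i ∈ A₀}
  have hD : #D ≤ μ := by
    refine le_trans ?_ hA
    refine mk_le_of_injective (f := fun i : D => (⟨siso _ i.1, i.2⟩ : A₀)) ?_
    intro x y hxy
    have : siso (lj S L) x.1 = siso _ y.1 := congrArg Subtype.val hxy
    exact Subtype.ext (iso_inj.1 this)
  let P : Set W := {j | ∃ h : j ∈ S, slim (lj S L) ⟨j, h⟩ ∈ A₀}
  let Q : Set W := {j | j ∈ S ∧ (L j ∩ D).Infinite}
  have hsub : cset S L A₀ ⊆ P ∪ Q := by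
    rintro j ⟨hj, hcl⟩
    by_cases h1 : slim (lj S L) ⟨j, hj⟩ ∈ A₀
    · exact Or.inl ⟨hj, h1⟩
    by_cases h3 : (L j ∩ D).Finite
    · exfalso
      have h4 := clopen_Vs (had hL) ⟨j, hj⟩ (B := L j \ D) (fun i hi => hi.1)
        (h3.subset fun i hi => ⟨hi.1, by_contra fun h => hi.2 ⟨hi.1, h⟩⟩)
      obtain ⟨x, hx, hxA⟩ := mem_closure_iff.1 hcl _ h4.isOpen (by simp)
      rcases hx with rfl | ⟨i, hi, rfl⟩
      · exact h1 hxA
      · exact hi.2 hxA
    · exact Or.inr ⟨hj, h3⟩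
  have hP : #P ≤ μ := by
    refine le_trans ?_ hA
    refine mk_le_of_injective (f := fun j : P => (⟨slim _ ⟨j.1, j.2.1⟩, j.2.2⟩ : A₀)) ?_
    intro x y hxy
    have : slim (lj S L) ⟨x.1, x.2.1⟩ = slim _ ⟨y.1, y.2.1⟩ := congrArg Subtype.val hxy
    exact Subtype.ext (Subtype.mk.inj (lim_inj.1 this))
  have hQ : #Q ≤ μ := by
    have hen : ∀ j : Q, ∃ e : ℕ → D, ∀ i : D, i.1 ∈ L j ↔ i ∈ range e := by
      intro j
      have hc : ({i : D | i.1 ∈ L j}).Countable := by
        refine ((hL.ctb j j.2.1).preimage_of_injOn (f := (Subtype.val : D → W)) ?_)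
        exact Subtype.val_injective.injOn
      have hne : ({i : D | i.1 ∈ L j}).Nonempty := by
        obtain ⟨i, hi⟩ := j.2.2.nonempty
        exact ⟨⟨i, hi.2⟩, hi.1⟩
      obtain ⟨e, he⟩ := hc.exists_eq_range hne
      exact ⟨e, fun i => by rw [← he]; rfl⟩
    choose e he using hen
    have hinj : Function.Injective e := by
      intro x y hxy
      by_contra hne
      have h1 : ((lj S L ⟨x.1, x.2.1⟩) ∩ (lj S L ⟨y.1, y.2.1⟩)).Finite :=
        had hL _ _ fun h => hne (Subtype.ext (Subtype.mk.inj h))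
      refine x.2.2 (h1.subset ?_)
      rintro i ⟨h3, h4⟩
      refine ⟨h3, ?_⟩
      have h5 := (he x ⟨i, h4⟩).1 h3
      rw [hxy] at h5
      exact (he y ⟨i, h4⟩).2 h5
    calc #Q ≤ #(ℕ → D) := mk_le_of_injective hinj
      _ = #D ^ ℵ₀ := by simp
      _ ≤ μ ^ ℵ₀ := power_le_power_right hD
      _ = μ := hμ
  calc #(cset S L A₀) ≤ #(P ∪ Q : Set W) := mk_le_mk_of_subset hsub
    _ ≤ #P + #Q := mk_union_le _ _
    _ ≤ μ + μ := add_le_add hP hQ
    _ = μ := add_eq_self hμ0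

theorem corson_closure (hL : Lad S L) (T : Set W) (hTS : T ⊆ S) (hG : ∀ ρ, ∃ C, Good T ρ C)
    (A₀ : Set (Sp (lj S L))) (ρ : W) (hρ : ∀ j ∈ T, j ≤ ρ) (hA : cset S L A₀ ⊆ T) :
    ∃ (Γ : Type) (f : ↥(closure A₀) → (Γ → ℝ)),
      IsEmbedding f ∧ (∀ x t, f x t = 0 ∨ f x t = 1) ∧
      ∀ x, (Function.support (f x)).encard ≤ 2 := by
  classical
  have hLT := hL.mono hTS
  obtain ⟨σ, -, hσ⟩ := exmin (P := fun _ : W => True) ⟨ρ, trivial⟩
  obtain ⟨g, hg1, hg2⟩ := disj_all hLT hG ρ σ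
  let B : W → Set W := fun j => {i | i ∈ L j ∧ g j < i}
  have hB : ∀ j : S, (j : W) ∈ T → (lj S L j \ B j).Finite := by
    intro j hj
    by_cases h : σ < (j : W)
    · refine (hL.fin j j.2 (g j) (hg1 j hj ⟨h, hρ j hj⟩).2).subset ?_
      rintro i ⟨h1, h2⟩
      exact ⟨h1, not_lt.1 fun h3 => h2 ⟨h1, h3⟩⟩
    · refine finite_empty.subset ?_
      rintro i ⟨h1, -⟩
      exact h ((hσ i trivial).trans_lt (hL.sub j j.2 i h1))
  have hdis : ∀ j ∈ T, ∀ j' ∈ T, ∀ i, i ∈ B j → i ∈ B j' → j = j' := by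
    have h0 : ∀ j ∈ T, ∀ j' ∈ T, ∀ i, i ∈ B j → i ∈ B j' → ¬ j < j' := by
      intro j hj j' hj' i hi hi' hlt
      have h1 : σ < j := (hσ i trivial).trans_lt (hL.sub j (hTS hj) i hi.1)
      exact hg2 j hj ⟨h1, hρ j hj⟩ j' hj' ⟨h1.trans hlt, hρ j' hj'⟩ hlt i hi.1 hi.2 hi'.1 hi'.2
    intro j hj j' hj' i hi hi'
    exact le_antisymm (not_lt.1 (h0 j' hj' j hj i hi' hi))
      (not_lt.1 (h0 j hj j' hj' i hi hi'))
  let U : W ⊕ S → Set (Sp (lj S L)) := fun t =>
    match t with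
    | Sum.inl i => {siso _ i}
    | Sum.inr j => if (j : W) ∈ T then Vs _ j (B j) else ∅
  have hU : ∀ t, IsClopen (U t) := by
    rintro (i | j)
    · exact clopen_iso i
    · by_cases h : (j : W) ∈ T
      · simp only [U, h, if_true]
        exact clopen_Vs (had hL) j (fun i hi => hi.1) (hB j h)
      · simp only [U, h, if_false]
        exact isClopen_empty
  let F : Sp (lj S L) → (W ⊕ S → ℝ) := fun x t => (U t).indicator (fun _ => (1 : ℝ)) x
  have hFc : Continuous F := by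
    refine continuous_pi fun t => ?_
    refine continuous_const.indicator ?_
    intro a ha
    rw [(hU t).frontier_eq] at ha
    exact absurd ha (notMem_empty _)
  have hF1 : ∀ x t, F x t ≠ 0 ↔ x ∈ U t := by
    intro x t
    simp [F, Set.indicator_apply]
  have hFU : ∀ x y, F x = F y → ∀ t, x ∈ U t → y ∈ U t := by
    intro x y hxy t hx
    rw [← hF1, ← hxy, hF1]
    exact hx
  have hhalf : ∀ x ∈ closure A₀, ∀ y ∈ closure A₀, F x = F y → x ≠ sinf _ → x = y := by
    intro x hx y hy hxy hne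
    rcases cases_pt x with ⟨i, rfl⟩ | ⟨j, rfl⟩ | rfl
    · have h1 : y ∈ U (Sum.inl i) := hFU _ _ hxy (Sum.inl i) rfl
      exact (show y = siso _ i from h1).symm
    · have hj : (j : W) ∈ T := hA ⟨j.2, hx⟩
      have h1 : y ∈ U (Sum.inr j) := hFU _ _ hxy (Sum.inr j) (by simp [U, hj])
      simp only [U, hj, if_true] at h1
      rcases h1 with h1 | ⟨i, -, h1⟩
      · exact h1.symm
      · have h2 : slim _ j ∈ U (Sum.inl i) := hFU _ _ hxy.symm (Sum.inl i) h1
        exact absurd h2 (by simp [U])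
    · exact absurd rfl hne
  have hinj : ∀ x ∈ closure A₀, ∀ y ∈ closure A₀, F x = F y → x = y := by
    intro x hx y hy hxy
    by_cases h : x = sinf _
    · by_cases h' : y = sinf _
      · rw [h, h']
      · exact (hhalf y hy x hx hxy.symm h').symm
    · exact hhalf x hx y hy hxy h
  have : CompactSpace ↥(closure A₀) := isCompact_iff_compactSpace.1 isClosed_closure.isCompact
  refine ⟨W ⊕ S, fun x => F x, ?_, fun x t => ?_, ?_⟩
  · refine (Continuous.isClosedEmbedding (hFc.comp continuous_subtype_val) ?_).isEmbedding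
    intro x y hxy
    exact Subtype.ext (hinj x x.2 y y.2 hxy)
  · simp only [F, Set.indicator_apply]
    split_ifs
    · exact Or.inr rfl
    · exact Or.inl rfl
  · rintro ⟨x, hx⟩
    have hsup : Function.support (F x) = {t | x ∈ U t} := by
      ext t
      exact hF1 x t
    show (Function.support (F x)).encard ≤ 2
    rw [hsup]
    rcases cases_pt x with ⟨i, rfl⟩ | ⟨j, rfl⟩ | rfl
    · have h1 : ({j : S | (j : W) ∈ T ∧ i ∈ B j}).Subsingleton := by
        rintro j ⟨h1, h2⟩ j' ⟨h3, h4⟩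
        exact Subtype.ext (hdis j h1 j' h3 i h2 h4)
      have h3 : ({Sum.inl i} ∪ Sum.inr '' {j : S | (j : W) ∈ T ∧ i ∈ B j} :
          Set (W ⊕ S)).encard ≤ 2 := by
        refine (encard_union_le _ _).trans ?_
        have h4 : (Sum.inr '' {j : S | (j : W) ∈ T ∧ i ∈ B j} : Set (W ⊕ S)).encard ≤ 1 :=
          encard_le_one_iff_subsingleton.2 (h1.image _)
        rw [encard_singleton]
        calc (1 : ℕ∞) + _ ≤ 1 + 1 := by gcongr
          _ = 2 := one_add_one_eq_two
      refine (encard_le_encard ?_).trans h3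
      rintro (i' | j) ht
      · left
        have : siso (lj S L) i = siso _ i' := ht
        rw [iso_inj] at this
        simp [this]
      · right
        by_cases hj : (j : W) ∈ T
        · have h2 : siso (lj S L) i ∈ U (Sum.inr j) := ht
          simp only [U, hj, if_true, iso_mem_Vs] at h2
          exact ⟨j, ⟨hj, h2⟩, rfl⟩
        · have h2 : siso (lj S L) i ∈ U (Sum.inr j) := ht
          simp [U, hj] at h2
    · refine (encard_le_encard (t := {Sum.inr j}) ?_).trans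
        ((encard_singleton _).le.trans one_le_two)
      rintro (i' | j') ht
      · have : slim (lj S L) j = siso _ i' := ht
        simp at this
      · have h2 : slim (lj S L) j ∈ U (Sum.inr j') := ht
        by_cases hj : (j' : W) ∈ T
        · simp only [U, hj, if_true, lim_mem_Vs] at h2
          simp [h2]
        · simp [U, hj] at h2
    · refine (encard_le_encard (t := (∅ : Set (W ⊕ S))) ?_).trans
        (by rw [encard_empty]; exact zero_le_two)
      rintro (i' | j') ht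
      · have : sinf (lj S L) = siso _ i' := ht
        simp at this
      · have h2 : sinf (lj S L) ∈ U (Sum.inr j') := ht
        by_cases hj : (j' : W) ∈ T
        · simp [U, hj] at h2
        · simp [U, hj] at h2

theorem not_corson {θ : Cardinal.{0}} (h : Reg W θ) (h0 : ℵ₀ < θ) (hS : St S) (hL : Lad S L) :
    ¬ ∃ (Γ : Type) (f : Sp (lj S L) → (Γ → ℝ)),
      IsEmbedding f ∧ ∀ x, (Function.support (f x)).Countable := by
  rintro ⟨Γ, f, hf, hc⟩
  obtain ⟨b⟩ : Nonempty W := mk_ne_zero_iff.1 (h.card ▸ h.reg.pos.ne')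
  have hcont : ∀ t, Continuous fun x => f x t := fun t => (continuous_apply t).comp hf.continuous
  have hsep : ∀ δ, ∃ t : Γ, ∃ i : W, ∀ hδ : δ ∈ S, b < δ →
      f (slim _ ⟨δ, hδ⟩) t ≠ f (sinf _) t ∧ i < δ ∧ f (siso _ i) t ≠ f (sinf _) t := by
    have hne : Nonempty Γ := by
      by_contra hn
      rw [not_nonempty_iff] at hn
      exact absurd (hf.injective (Subsingleton.elim (f (siso _ b)) (f (sinf _)))) iso_ne_inf
    intro δ
    by_cases hδ : δ ∈ S ∧ b < δ
    · obtain ⟨hδS, hbδ⟩ := hδ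
      have h1 : f (slim _ ⟨δ, hδS⟩) ≠ f (sinf _) := fun h => by
        have := hf.injective h
        simp at this
      obtain ⟨t, ht⟩ := Function.ne_iff.1 h1
      let U : Set (Sp (lj S L)) := {x | f x t ≠ f (sinf _) t}
      have hU : IsOpen U := isOpen_ne_fun (hcont t) continuous_const
      have hfin := hU.1 ⟨δ, hδS⟩ ht
      have hex : ∃ i ∈ L δ, siso _ i ∈ U := by
        by_contra hn
        push Not at hn
        have h2 : (L δ).Finite := hfin.subset fun i hi => ⟨hi, hn i hi⟩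
        obtain ⟨i0, hi0, -⟩ := hL.cof δ hδS b hbδ
        obtain ⟨m, hm, hm'⟩ := h2.exists_maximal ⟨i0, hi0⟩
        obtain ⟨i1, hi1, hlt⟩ := hL.cof δ hδS m (hL.sub δ hδS m hm)
        exact absurd (hm' hi1 hlt.le) (not_le.2 hlt)
      obtain ⟨i, hi, hiU⟩ := hex
      exact ⟨t, i, fun _ _ => ⟨ht, hL.sub δ hδS i hi, hiU⟩⟩
    · exact ⟨Classical.arbitrary Γ, b, fun h1 h2 => absurd ⟨h1, h2⟩ hδ⟩
  choose t i hti using hsep
  obtain ⟨z, hz⟩ := (hS.gt b).fodor h i fun x hx => (hti x hx.1 hx.2).2.1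
  have hT : ({t | f (siso _ z) t ≠ f (sinf _) t} : Set Γ).Countable := by
    refine ((hc (siso _ z)).union (hc (sinf _))).mono ?_
    intro s hs
    by_contra hn
    rw [mem_union, not_or, Function.notMem_support, Function.notMem_support] at hn
    exact hs (hn.1.trans hn.2.symm)
  obtain ⟨s, hs⟩ := hz.pigeon h ((le_aleph0_iff_set_countable.2 hT).trans_lt h0) t
    fun x hx => by
      have := (hti x hx.1.1 hx.1.2).2.2
      rw [hx.2] at this
      exact this
  -- the set of `δ` separated from infinity by `s` is countable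
  have hD : ({j : S | f (slim _ j) s ≠ f (sinf _) s}).Countable := by
    have h1 : ∀ n : ℕ, ({j : S | 1 / ((n : ℝ) + 1) ≤ |f (slim _ j) s - f (sinf _) s|}).Finite := by
      intro n
      let V : Set (Sp (lj S L)) := {x | |f x s - f (sinf _) s| < 1 / ((n : ℝ) + 1)}
      have hV : IsOpen V := isOpen_lt ((hcont s).sub continuous_const).abs continuous_const
      have hinf : sinf (lj S L) ∈ V := by
        simp only [V, mem_setOf_eq, sub_self, abs_zero]
        positivity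
      obtain ⟨F, hF, h2, -⟩ := hV.2 hinf
      refine hF.subset fun j hj => ?_
      by_contra hn
      exact absurd (show |f (slim _ j) s - f (sinf _) s| < 1 / ((n : ℝ) + 1) from h2 j hn)
        (not_lt.2 hj)
    refine (countable_iUnion fun n => (h1 n).countable).mono ?_
    intro j hj
    rw [mem_iUnion]
    have h3 : 0 < |f (slim _ j) s - f (sinf _) s| := abs_pos.2 (sub_ne_zero.2 hj)
    obtain ⟨n, hn⟩ := exists_nat_one_div_lt h3
    exact ⟨n, hn.le⟩
  have hD' : ({x : W | x ∈ {x ∈ {x ∈ {x ∈ S | b < x} | i x = z} | t x = s}}).Countable := by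
    refine (hD.image Subtype.val).mono ?_
    rintro x ⟨⟨⟨hx, hbx⟩, -⟩, hts⟩
    refine ⟨⟨x, hx⟩, ?_, rfl⟩
    have := (hti x hx hbx).1
    rw [hts] at this
    exact this
  obtain ⟨c, hc'⟩ := h.bdd ((le_aleph0_iff_set_countable.2 hD').trans_lt h0)
  obtain ⟨x, hx, hcx⟩ := hs.unb c
  exact absurd (hc' x hx) (not_lt.2 hcx.le)

end Pool.Agent.Helper79L.LS
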